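import Pool.Agent.H820R2.SC.Fin

/-!
# Spanning tree congestion is `W[1]`-hard on `k`-outerplanar graphs, parameterized by `k`

The definitions used in the statement are in `Pool.Agent.H820R2.SC.Defs` and
`Pool.Agent.H557R2.FptDefs`:
* `cng G T e`, `ec G T`: the congestion of an edge `e` of the spanning tree `T` of `G` and of `T`;
  `StcLe G t`: some spanning tree of `G` has congestion at most `t`;
* `IsKOuterplanar k G`: `G` has a straight-line plane drawing from which all vertices disappear
  when the vertices on the outer face are deleted `k` times;
* `stcProblem`: the pairs `(code of (G, t), k)` such that `G` is connected and `k`-outerplanar and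
  `StcLe G t`;
* `StcFpt`: a Turing machine, given a connected `k`-outerplanar graph on `n` vertices and `k`,
  outputs a spanning tree of minimum congestion in `f k * p n` steps;
* `pClique`, `W1`, `W1Hard`, `FptDecidable`: `p-Clique`, the class `W[1]`, hardness for it and
  fixed-parameter tractability.
-/

namespace Pool.Agent.Results.MP_20e1d9_lc.WOneHard

open Pool.Agent.NPC Pool.Agent.H557R2.Fpt Pool.Agent.H820R2.SC

/-- **STC is `W[1]`-hard on `k`-outerplanar graphs**, parameterized by `k`: so is its decision
version; an fpt-reduction from `p-Clique` produces connected `k`-outerplanar graphs only; and an fpt algorithm for STC on connected `k`-outerplanar graphs would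
put all of `W[1]` in `FPT`. -/
theorem result : W1Hard stcProblem ∧
    (∃ R : List Bool × ℕ → List Bool × ℕ, FptComputable R ∧
      (∀ x k, (R (x, k)).2 ≤ 16 * (k + k * k) + 19) ∧
      ∀ x k, ∃ (n t : ℕ) (G : SimpleGraph (Fin n)), G.Connected ∧
        IsKOuterplanar (R (x, k)).2 G ∧
        (R (x, k)).1 = bits ((matOf G, t) : List (List Bool) × ℕ) ∧
        ((x, k) ∈ pClique ↔ StcLe G t)) ∧
    (StcFpt → ∀ L ∈ W1, FptDecidable L) :=
  ⟨w1Hard_stc, exists_fpt_reduction, fpt_imp⟩

end Pool.Agent.Results.MP_20e1d9_lc.WOneHard
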